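import Pool.Agent.Lib.MP_33bfb2_co.Th.LMain

namespace Pool.Agent.Results.MP_33bfb2_co.Full

open Pool.Agent.Lib.MP_33bfb2_co

/-- Graded h-positivity in types B (c = 1) and C (c = 2) for every Hessenberg set H of positive
roots and every degree d. -/
theorem result (n : ℕ) (hn : 1 ≤ n) (c : ℤ) (hc : c = 1 ∨ c = 2) (H : Set (Fin n → ℤ))
    (hH : H ⊆ posRoots n c)
    (hHess : ∀ β ∈ posRoots n c, ∀ γ ∈ posRoots n c, β + γ ∈ H → β ∈ H)
    (d : ℕ) : HPos n fun N => frob N (dotChar H d) :=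
  Th.main_full hn hc hH hHess d

end Pool.Agent.Results.MP_33bfb2_co.Full
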